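import Pool.Agent.R537.TE.Stm

set_option autoImplicit false

/-! Project TE: piece PYTH. -/

namespace Pool.Agent.R537.TE

namespace Pyth

lemma norm_sq (m : ℕ) (u : E (m + 1)) : ‖u‖ ^ 2 = ∑ i, u i ^ 2 := EuclideanSpace.real_norm_sq_eq u

lemma norm_add_ones (m : ℕ) (u : E (m + 1)) (s : ℝ) (h : ∑ i, u i = 0) :
    ‖u + s • ones m‖ ^ 2 = ‖u‖ ^ 2 + (m + 1) * s ^ 2 := by
  rw [norm_sq, norm_sq]
  have e : ∀ i, (u + s • ones m) i ^ 2 = u i ^ 2 + 2 * s * u i + s ^ 2 := by
    intro i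
    have : (u + s • ones m) i = u i + s := by
      simp [ones]
    rw [this]
    ring
  simp only [e]
  rw [Finset.sum_add_distrib, Finset.sum_add_distrib, ← Finset.mul_sum, h]
  simp

lemma vec_sum (m : ℕ) (t : Fin m → ℝ) : ∑ i, (vec t) i = 0 := by
  rw [Fin.sum_univ_succ]
  simp [vec]

lemma decomp (m : ℕ) (x : E (m + 1)) : x = vec (tc x) + mean x • ones m := by
  have hm : ((m : ℝ) + 1) ≠ 0 := by positivity
  ext i
  refine Fin.cases ?_ (fun j => ?_) i
  · have e1 : (vec (tc x) + mean x • ones m) 0 = -(∑ j, tc x j) + mean x := by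
      simp [vec, ones]
    rw [e1]
    unfold tc
    rw [Finset.sum_sub_distrib]
    have e2 : (∑ j : Fin m, x j.succ) = (m + 1) * mean x - x 0 := by
      unfold mean
      rw [Fin.sum_univ_succ]
      field_simp
      ring
    rw [e2]
    simp
    ring
  · have e1 : (vec (tc x) + mean x • ones m) j.succ = tc x j + mean x := by
      simp [vec, ones]
    rw [e1]
    unfold tc
    ring

/-- the projection of a lattice vector -/
lemma proj (m : ℕ) (v : E (m + 1)) (hv : v ∈ LL m) : ∃ (w : E (m + 1)) (k : ℤ),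
    v = w + (k : ℝ) • ones m ∧ ∑ i, w i = 0 ∧ ∀ l : ℤ, w + (l : ℝ) • ones m ∈ LL m := by
  obtain ⟨k, hk, c, hc⟩ := hv
  refine ⟨v - (c : ℝ) • ones m, c, by simp, ?_, ?_⟩
  · have e : ∀ i, (v - (c : ℝ) • ones m) i = (k i : ℝ) - c := by
      intro i
      have : (v - (c : ℝ) • ones m) i = v i - c := by simp [ones]
      rw [this, hk]
    simp only [e]
    rw [Finset.sum_sub_distrib]
    have hc' : ((∑ i, k i : ℤ) : ℝ) = (((m : ℤ) + 1) * c : ℤ) := by rw [hc]
    push_cast at hc'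
    rw [hc']
    simp
  · intro l
    refine ⟨fun i => k i - c + l, fun i => ?_, c + (l - c), ?_⟩
    · have : (v - (c : ℝ) • ones m + (l : ℝ) • ones m) i = v i - c + l := by simp [ones]
      rw [this, hk]
      push_cast
      ring
    · rw [Finset.sum_add_distrib, Finset.sum_sub_distrib, hc]
      simp

end Pyth

open Pyth in
theorem t_PYTH : S_PYTH := by
  intro m x
  obtain ⟨p, hp⟩ : ∃ p, p = vec (tc x) := ⟨_, rfl⟩
  obtain ⟨τ, hτ⟩ : ∃ τ, τ = mean x := ⟨_, rfl⟩
  have hx : x = p + τ • ones m := by rw [hp, hτ]; exact decomp m x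
  have hps : ∑ i, p i = 0 := by rw [hp]; exact vec_sum m _
  rw [← hp, ← hτ]
  have hne : (LL m).Nonempty := ⟨0, fun _ => 0, fun i => by simp, by simp⟩
  have hm : (0 : ℝ) ≤ (m : ℝ) + 1 := by positivity
  have hsum : ∀ w : E (m + 1), ∑ i, w i = 0 → ∑ i, (p - w) i = 0 := by
    intro w hw
    have e : ∀ i, (p - w) i = p i - w i := fun i => by simp
    simp only [e]
    rw [Finset.sum_sub_distrib, hps, hw, sub_zero]
  have hxw : ∀ (w : E (m + 1)) (l : ℤ), ∑ i, w i = 0 →
      dist x (w + (l : ℝ) • ones m) ^ 2 = ‖p - w‖ ^ 2 + (m + 1) * (τ - l) ^ 2 := by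
    intro w l hw
    rw [dist_eq_norm, hx, ← norm_add_ones m (p - w) (τ - l) (hsum w hw)]
    congr 2
    rw [sub_smul]
    abel
  have hpw : ∀ (w : E (m + 1)) (l : ℤ), ∑ i, w i = 0 →
      dist p (w + (l : ℝ) • ones m) ^ 2 = ‖p - w‖ ^ 2 + (m + 1) * (-(l : ℝ)) ^ 2 := by
    intro w l hw
    rw [dist_eq_norm, ← norm_add_ones m (p - w) (-(l : ℝ)) (hsum w hw)]
    congr 2
    rw [neg_smul]
    abel
  apply le_antisymm
  · have h1 : Real.sqrt (Metric.infDist x (LL m) ^ 2 - (m + 1) * (τ - round τ) ^ 2) ≤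
        Metric.infDist p (LL m) := by
      refine (Metric.le_infDist hne).2 fun v hv => ?_
      obtain ⟨w, k, rfl, hw, hl⟩ := proj m v hv
      rw [Real.sqrt_le_iff]
      refine ⟨dist_nonneg, ?_⟩
      rw [hpw w k hw]
      have h2 : Metric.infDist x (LL m) ≤ dist x (w + ((round τ : ℤ) : ℝ) • ones m) :=
        Metric.infDist_le_dist_of_mem (hl _)
      have h3 := pow_le_pow_left₀ Metric.infDist_nonneg h2 2
      rw [hxw w (round τ) hw] at h3
      have h4 : 0 ≤ ((m : ℝ) + 1) * (-(k : ℝ)) ^ 2 := by positivity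
      linarith
    rw [Real.sqrt_le_iff] at h1
    linarith [h1.2]
  · have h1 : Real.sqrt (Metric.infDist p (LL m) ^ 2 + (m + 1) * (τ - round τ) ^ 2) ≤
        Metric.infDist x (LL m) := by
      refine (Metric.le_infDist hne).2 fun v hv => ?_
      obtain ⟨w, k, rfl, hw, hl⟩ := proj m v hv
      rw [Real.sqrt_le_iff]
      refine ⟨dist_nonneg, ?_⟩
      rw [hxw w k hw]
      have hw0 : w ∈ LL m := by
        have := hl 0
        simpa using this
      have h2 : Metric.infDist p (LL m) ≤ dist p w := Metric.infDist_le_dist_of_mem hw0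
      have h3 := pow_le_pow_left₀ Metric.infDist_nonneg h2 2
      rw [dist_eq_norm] at h3
      have h4 : |τ - round τ| ≤ |τ - k| := round_le τ k
      have h5 : (τ - round τ) ^ 2 ≤ (τ - k) ^ 2 := sq_le_sq.2 h4
      have h6 := mul_le_mul_of_nonneg_left h5 hm
      linarith
    rw [Real.sqrt_le_iff] at h1
    exact h1.2

end Pool.Agent.R537.TE
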